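import Pool.Agent.W_4929df_h92.BrwK2

/-!
MP_4929df_co. A 4-connected matroid `M` given by vectors over GF(8) and a rooted binary tree whose
leaves are the elements of `M`, each exactly once, such that the set of leaves of every subtree has
connectivity at most `k`. Then `M` has at most `K` inequivalent GF(8)-representations; `K` depends
only on `k`.
-/

set_option autoImplicit false

namespace Pool.Agent.Results.MP_4929df_co.BranchWidth

/-- the rank of the set `X` in the matroid of the vectors `v` -/
noncomputable def rank {E : Type} {m : ℕ} (v : E → (Fin m → GaloisField 2 3)) (X : Set E) : ℕ :=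
  Module.finrank (GaloisField 2 3) (Submodule.span (GaloisField 2 3) (v '' X))

/-- the matroid of the vectors `v` is 4-connected (the hypothesis of the frozen statement) -/
def FourConnected {E : Type} {m : ℕ} (v : E → (Fin m → GaloisField 2 3)) : Prop :=
  ∀ X : Set E, ∀ j : ℕ, j < 4 → j ≤ X.ncard → j ≤ Xᶜ.ncard →
    Module.finrank (GaloisField 2 3) (Submodule.span (GaloisField 2 3) (Set.range v)) + j ≤
      Module.finrank (GaloisField 2 3) (Submodule.span (GaloisField 2 3) (v '' X)) +
      Module.finrank (GaloisField 2 3) (Submodule.span (GaloisField 2 3) (v '' Xᶜ))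

/-- rooted binary trees with leaves labelled by elements of `E` -/
inductive Tree (E : Type) where
  | leaf : E → Tree E
  | node : Tree E → Tree E → Tree E

/-- the labels of the leaves -/
def Tree.leaves {E : Type} : Tree E → List E
  | .leaf e => [e]
  | .node l r => l.leaves ++ r.leaves

/-- `X` is the set of labels of the leaves of a subtree -/
def Tree.Displays {E : Type} : Tree E → Set E → Prop
  | .leaf e, X => X = {e}
  | .node l r, X => X = {x | x ∈ l.leaves ++ r.leaves} ∨ l.Displays X ∨ r.Displays X

/-- the same tree as a `BTree` -/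
def Tree.toB {E : Type} : Tree E → Pool.MP_4929df_co.H92.BTree E
  | .leaf e => .leaf e
  | .node l r => .node l.toB r.toB

theorem Tree.leaves_toB {E : Type} (t : Tree E) : t.toB.leaves = t.leaves := by
  induction t with
  | leaf e => rfl
  | node l r hl hr =>
    change l.toB.leaves ++ r.toB.leaves = l.leaves ++ r.leaves
    rw [hl, hr]

theorem Tree.displays_toB {E : Type} (t : Tree E) (X : Set E) :
    t.toB.Displays X ↔ t.Displays X := by
  induction t with
  | leaf e => rfl
  | node l r hl hr =>
    change (X = {x | x ∈ l.toB.leaves ++ r.toB.leaves} ∨ l.toB.Displays X ∨ r.toB.Displays X) ↔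
      (X = {x | x ∈ l.leaves ++ r.leaves} ∨ l.Displays X ∨ r.Displays X)
    rw [Tree.leaves_toB, Tree.leaves_toB, hl, hr]

theorem result (k : ℕ) : ∃ K : ℕ, ∀ (E : Type) [Fintype E] (m : ℕ)
    (v : E → (Fin m → GaloisField 2 3)) (t : Tree E), FourConnected v → t.leaves.Nodup →
    (∀ e, e ∈ t.leaves) →
    (∀ X, t.Displays X → rank v X + rank v Xᶜ ≤ rank v Set.univ + k) →
    ∀ r : ℕ, ∀ w : Fin (K + 1) → E → (Fin r → GaloisField 2 3),
      (∀ i, Submodule.span (GaloisField 2 3) (Set.range (w i)) = ⊤ ∧
        ∀ S : Set E, (LinearIndependent (GaloisField 2 3) (fun s : S => w i (s : E)) ↔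
          LinearIndependent (GaloisField 2 3) (fun s : S => v (s : E)))) →
      ∃ i j : Fin (K + 1), i ≠ j ∧
        ∃ g : (Fin r → GaloisField 2 3) ≃ₗ[GaloisField 2 3] (Fin r → GaloisField 2 3),
        ∃ c : E → GaloisField 2 3, (∀ e, c e ≠ 0) ∧ ∀ e, w i e = c e • g (w j e) := by
  obtain ⟨K, hK⟩ := Pool.MP_4929df_co.H92.final7 k
  refine ⟨K, ?_⟩
  intro E _ m v t hv hn he hd
  refine hK E m v t.toB hv ?_ ?_ ?_
  · rw [Tree.leaves_toB]
    exact hn
  · intro e
    rw [Tree.leaves_toB]
    exact he e
  · intro X hX
    exact hd X ((Tree.displays_toB t X).1 hX)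

end Pool.Agent.Results.MP_4929df_co.BranchWidth
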