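import Pool.Agent.W_4929df_h92.Final4

/-!
MP_4929df_co. A matroid `M` given by vectors over GF(8), disjoint sets `C` and `D` with at most `t`
elements each, and the minor `N` of `M` obtained by contracting `C` and deleting `D`. If `N` is
3-connected, or if `M` is 4-connected and `N` arises by the removal of one element, then `M` has at
most `k` inequivalent GF(8)-representations as soon as at most `t` inequivalent representations of
`N` are induced by them, in particular if `N` is binary; `k` depends only on `t`.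
-/

set_option autoImplicit false

namespace Pool.Agent.Results.MP_4929df_co.FibreBound

/-- the span of the vectors `v e`, `e ∈ X` -/
noncomputable def spn {E : Type} {m : ℕ} (v : E → (Fin m → GaloisField 2 3)) (X : Set E) :
    Submodule (GaloisField 2 3) (Fin m → GaloisField 2 3) :=
  Submodule.span (GaloisField 2 3) (v '' X)

/-- the rank of the set `X` in the matroid of the vectors `v` -/
noncomputable def rank {E : Type} {m : ℕ} (v : E → (Fin m → GaloisField 2 3)) (X : Set E) : ℕ :=
  Module.finrank (GaloisField 2 3) (spn v X)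

/-- the matroid of the vectors `v` is 4-connected (the hypothesis of the frozen statement) -/
def FourConnected {E : Type} {m : ℕ} (v : E → (Fin m → GaloisField 2 3)) : Prop :=
  ∀ X : Set E, ∀ j : ℕ, j < 4 → j ≤ X.ncard → j ≤ Xᶜ.ncard →
    Module.finrank (GaloisField 2 3) (Submodule.span (GaloisField 2 3) (Set.range v)) + j ≤
      Module.finrank (GaloisField 2 3) (Submodule.span (GaloisField 2 3) (v '' X)) +
      Module.finrank (GaloisField 2 3) (Submodule.span (GaloisField 2 3) (v '' Xᶜ))

/-- the minor of the matroid of the vectors `v` obtained by contracting `C` and deleting `D` is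
3-connected (its ground set is the complement of `C ∪ D` and the rank of `X` in it is
`rank v (X ∪ C) - rank v C`) -/
def MinorThreeConnected {E : Type} {m : ℕ} (v : E → (Fin m → GaloisField 2 3)) (C D : Set E) :
    Prop :=
  ∀ X : Set E, X ⊆ (C ∪ D)ᶜ → ∀ j : ℕ, j < 3 → j ≤ X.ncard → j ≤ ((C ∪ D)ᶜ \ X).ncard →
    rank v ((C ∪ D)ᶜ ∪ C) + rank v C + j ≤ rank v (X ∪ C) + rank v (((C ∪ D)ᶜ \ X) ∪ C)

/-- the minor of the matroid of the vectors `v` obtained by contracting `C` and deleting `D` is
binary -/
def MinorBinary {E : Type} {m : ℕ} (v : E → (Fin m → GaloisField 2 3)) (C D : Set E) : Prop :=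
  ∃ (n : ℕ) (u : E → (Fin n → ZMod 2)), ∀ X : Set E, X ⊆ (C ∪ D)ᶜ →
    rank v (X ∪ C) = rank v C + Module.finrank (ZMod 2) (Submodule.span (ZMod 2) (u '' X))

/-- the representations of the minor (contract `C`, delete `D`) induced by the representations `w`
and `w'`, i.e. the vectors `w e` modulo `spn w C` and the vectors `w' e` modulo `spn w' C`
(`e` outside `C ∪ D`), are related by an invertible linear map and nonzero column scaling -/
def MinorEquivalent {E : Type} {r : ℕ} (C D : Set E) (w w' : E → (Fin r → GaloisField 2 3)) :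
    Prop :=
  ∃ g : (Fin r → GaloisField 2 3) ≃ₗ[GaloisField 2 3] (Fin r → GaloisField 2 3),
    (∀ x, x ∈ spn w' C ↔ g x ∈ spn w C) ∧
    ∃ c : E → GaloisField 2 3, (∀ e, c e ≠ 0) ∧ ∀ e, e ∉ C ∪ D → w e - c e • g (w' e) ∈ spn w C

theorem result (t : ℕ) : ∃ k : ℕ, ∀ (E : Type) [Fintype E] (m : ℕ)
    (v : E → (Fin m → GaloisField 2 3)) (C D : Set E), Disjoint C D → C.ncard ≤ t → D.ncard ≤ t →
    (MinorThreeConnected v C D ∨ ((C ∪ D).ncard = 1 ∧ FourConnected v)) →
    ∀ r : ℕ, ∀ w : Fin (k + 1) → E → (Fin r → GaloisField 2 3),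
      (∀ i, Submodule.span (GaloisField 2 3) (Set.range (w i)) = ⊤ ∧
        ∀ S : Set E, (LinearIndependent (GaloisField 2 3) (fun s : S => w i (s : E)) ↔
          LinearIndependent (GaloisField 2 3) (fun s : S => v (s : E)))) →
      (MinorBinary v C D ∨ ∀ T : Set (Fin (k + 1)), t < T.ncard →
        ∃ i ∈ T, ∃ j ∈ T, i ≠ j ∧ MinorEquivalent C D (w i) (w j)) →
      ∃ i j : Fin (k + 1), i ≠ j ∧
        ∃ g : (Fin r → GaloisField 2 3) ≃ₗ[GaloisField 2 3] (Fin r → GaloisField 2 3),
        ∃ c : E → GaloisField 2 3, (∀ e, c e ≠ 0) ∧ ∀ e, w i e = c e • g (w j e) := by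
  obtain ⟨k, hk⟩ := Pool.MP_4929df_co.H92.final3 t
  refine ⟨k, ?_⟩
  intro E _ m v C D hCD hC hD hcase r w hw hbin
  refine hk E m v C D hCD hC hD hcase r w hw (hbin.imp id ?_)
  intro h T hT
  obtain ⟨i, hi, j, hj, hij, g, hg, c, hc, hcw⟩ := h T hT
  exact ⟨i, hi, j, hj, hij, Pool.MP_4929df_co.H92.equivMinor_of_lift g hg hc hcw⟩

end Pool.Agent.Results.MP_4929df_co.FibreBound
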