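import Pool.Agent.W_4929df_h92.Final5

/-!
MP_4929df_co. A matroid `M` given by vectors over GF(8), disjoint sets `C` and `X` such that
`X ∪ C` spans `M`, and the minor `N` of `M` obtained by contracting `C` and deleting all elements
outside `X ∪ C`. If `N` is 3-connected and has at most `t` elements whose contraction leaves a
matroid all of whose components have at most `t` elements, then `M` has at most `k` inequivalent
GF(8)-representations as soon as at most `t` inequivalent representations of `N` are induced by
them, in particular if `N` is binary; `k` depends only on `t` (and `C` has at most `t` elements).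
The elements outside `X ∪ C` are arbitrary.
-/

set_option autoImplicit false

namespace Pool.Agent.Results.MP_4929df_co.SpanningStar

/-- the span of the vectors `v e`, `e ∈ X` -/
noncomputable def spn {E : Type} {m : ℕ} (v : E → (Fin m → GaloisField 2 3)) (X : Set E) :
    Submodule (GaloisField 2 3) (Fin m → GaloisField 2 3) :=
  Submodule.span (GaloisField 2 3) (v '' X)

/-- the rank of the set `X` in the matroid of the vectors `v` -/
noncomputable def rank {E : Type} {m : ℕ} (v : E → (Fin m → GaloisField 2 3)) (X : Set E) : ℕ :=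
  Module.finrank (GaloisField 2 3) (spn v X)

/-- the minor `N` of the matroid of the vectors `v` obtained by contracting `C` and deleting all
elements outside `X ∪ C` is 3-connected (its ground set is `X` and the rank of `Z` in it is
`rank v (Z ∪ C) - rank v C`) -/
def MinorThreeConnected {E : Type} {m : ℕ} (v : E → (Fin m → GaloisField 2 3)) (C X : Set E) :
    Prop :=
  ∀ Z : Set E, Z ⊆ X → ∀ j : ℕ, j < 3 → j ≤ Z.ncard → j ≤ (X \ Z).ncard →
    rank v (X ∪ C) + rank v C + j ≤ rank v (Z ∪ C) + rank v ((X \ Z) ∪ C)

/-- every element of `X` outside `S` is in a set `P` of at most `t` elements which is a union of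
components of the matroid obtained from `N` by contracting `S`: the rank of `P` and the rank of the
rest add up to the rank of that matroid -/
def SmallPieces {E : Type} {m : ℕ} (v : E → (Fin m → GaloisField 2 3)) (C X S : Set E) (t : ℕ) :
    Prop :=
  ∀ x ∈ X \ S, ∃ P ⊆ X \ S, x ∈ P ∧ P.ncard ≤ t ∧
    rank v (P ∪ S ∪ C) + rank v ((X \ P) ∪ C) = rank v (X ∪ C) + rank v (S ∪ C)

/-- the minor `N` is binary -/
def MinorBinary {E : Type} {m : ℕ} (v : E → (Fin m → GaloisField 2 3)) (C X : Set E) : Prop :=
  ∃ (n : ℕ) (u : E → (Fin n → ZMod 2)), ∀ Z : Set E, Z ⊆ X →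
    rank v (Z ∪ C) = rank v C + Module.finrank (ZMod 2) (Submodule.span (ZMod 2) (u '' Z))

/-- the representations of the minor `N` induced by the representations `w` and `w'`, i.e. the
vectors `w e` modulo `spn w C` and the vectors `w' e` modulo `spn w' C` (`e ∈ X`), are related by an
invertible linear map and nonzero column scaling -/
def MinorEquivalent {E : Type} {r : ℕ} (C X : Set E) (w w' : E → (Fin r → GaloisField 2 3)) :
    Prop :=
  ∃ g : (Fin r → GaloisField 2 3) ≃ₗ[GaloisField 2 3] (Fin r → GaloisField 2 3),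
    (∀ x, x ∈ spn w' C ↔ g x ∈ spn w C) ∧
    ∃ c : E → GaloisField 2 3, (∀ e, c e ≠ 0) ∧ ∀ e ∈ X, w e - c e • g (w' e) ∈ spn w C

theorem result (t : ℕ) : ∃ k : ℕ, ∀ (E : Type) [Fintype E] (m : ℕ)
    (v : E → (Fin m → GaloisField 2 3)) (C X S : Set E), Disjoint C X → C.ncard ≤ t →
    rank v (X ∪ C) = rank v Set.univ → MinorThreeConnected v C X →
    S ⊆ X → S.ncard ≤ t → SmallPieces v C X S t →
    ∀ r : ℕ, ∀ w : Fin (k + 1) → E → (Fin r → GaloisField 2 3),
      (∀ i, Submodule.span (GaloisField 2 3) (Set.range (w i)) = ⊤ ∧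
        ∀ S : Set E, (LinearIndependent (GaloisField 2 3) (fun s : S => w i (s : E)) ↔
          LinearIndependent (GaloisField 2 3) (fun s : S => v (s : E)))) →
      (MinorBinary v C X ∨ ∀ T : Set (Fin (k + 1)), t < T.ncard →
        ∃ i ∈ T, ∃ j ∈ T, i ≠ j ∧ MinorEquivalent C X (w i) (w j)) →
      ∃ i j : Fin (k + 1), i ≠ j ∧
        ∃ g : (Fin r → GaloisField 2 3) ≃ₗ[GaloisField 2 3] (Fin r → GaloisField 2 3),
        ∃ c : E → GaloisField 2 3, (∀ e, c e ≠ 0) ∧ ∀ e, w i e = c e • g (w j e) :=
  Pool.MP_4929df_co.H92.final5 t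

end Pool.Agent.Results.MP_4929df_co.SpanningStar
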